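import Pool.Agent.H92.RK.Targets

set_option autoImplicit false

/-!
# Module BS2 of MP_8f7db2_an: first zero and rescaling
-/

open MeasureTheory Set
open scoped ENNReal

namespace Pool.Agent.H14.RK

open Pool.Agent.H92.RK

theorem pf_BS2 (hBS1 : T_BS1) : T_BS2 := by
  obtain ⟨C, C₀, hsm, hd, hd2, h0, hneg, hpos⟩ := hBS1
  have hcont : Continuous C := hsm.continuous
  have hne : ∃ s ∈ Icc (1 : ℝ) (15 / 4), C s = 0 := by
    have h1 : (0 : ℝ) ∈ Icc (C (15 / 4)) (C 1) :=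
      ⟨hneg.le, (hpos 1 (by norm_num) le_rfl).le⟩
    obtain ⟨s, hs, hs0⟩ := intermediate_value_Icc' (by norm_num : (1 : ℝ) ≤ 15 / 4)
      hcont.continuousOn h1
    exact ⟨s, hs, hs0⟩
  obtain ⟨s, hs, hs0⟩ := hne
  have hK : IsCompact (Icc (1 : ℝ) (15 / 4) ∩ C ⁻¹' {0}) :=
    isCompact_Icc.inter_right (isClosed_singleton.preimage hcont)
  obtain ⟨σ, hσ⟩ := hK.exists_isLeast ⟨s, hs, hs0⟩
  have hσ1 : 1 ≤ σ := hσ.1.1.1
  have hσ2 : σ ≤ 15 / 4 := hσ.1.1.2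
  have hσ3 : C σ = 0 := hσ.1.2
  have hσ0 : (0 : ℝ) < σ := by linarith
  have hpos2 : ∀ t, 0 ≤ t → t < σ → 0 < C t := by
    intro t ht0 htσ
    rcases le_or_gt t 1 with h | h
    · exact hpos t ht0 h
    · by_contra hc
      push Not at hc
      have h1 : (0 : ℝ) ∈ Icc (C t) (C 1) := ⟨hc, (hpos 1 (by norm_num) le_rfl).le⟩
      obtain ⟨r, hr, hr0⟩ := intermediate_value_Icc' h.le hcont.continuousOn h1
      have := hσ.2 (⟨⟨hr.1, hr.2.trans (htσ.le.trans hσ2)⟩, hr0⟩ :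
        r ∈ Icc (1 : ℝ) (15 / 4) ∩ C ⁻¹' {0})
      linarith [hr.2]
  have hlin : ∀ t : ℝ, HasDerivAt (fun t : ℝ => σ * t) σ t := by
    intro t
    simpa using (hasDerivAt_id t).const_mul σ
  refine ⟨σ, fun t => C (σ * t), fun t => C₀ (σ * t), ?_⟩
  refine ⟨hσ1, hσ2, hsm.comp (contDiff_const.mul contDiff_id), ?_, ?_, ?_, ?_, ?_⟩
  · intro t
    have h1 := (HasDerivAt.comp t (hd (σ * t)) (hlin t)).const_mul σ⁻¹
    have h2 : (fun y : ℝ => σ⁻¹ * ((fun t => t * C t) ∘ fun t => σ * t) y) =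
        fun t => t * C (σ * t) := by
      funext y
      simp only [Function.comp]
      field_simp
    have h3 : σ⁻¹ * (C₀ (σ * t) * σ) = C₀ (σ * t) := by
      field_simp
    rw [h2, h3] at h1
    exact h1
  · intro t
    have h1 := HasDerivAt.comp t (hd2 (σ * t)) (hlin t)
    have h3 : -C (σ * t) * σ = -σ * C (σ * t) := by ring
    rw [h3] at h1
    exact h1
  · simp [h0]
  · intro t ht0 ht1
    have : σ * t < σ * 1 := mul_lt_mul_of_pos_left ht1 hσ0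
    exact hpos2 _ (by positivity) (by linarith)
  · simp [hσ3]

end Pool.Agent.H14.RK
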