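import Pool.Agent.H32.RK.TargetsA
import Pool.Agent.H32.RK.TargetsB

/-!
# Module CNT of MP_63b6b1_nt over a number field: lattice points in a parallelogram
-/

set_option autoImplicit false

open Finset NumberField Pool.Agent.H32.RQ Pool.Agent.H32.RK

namespace Pool.Agent.H14.RK

section

variable {K : Type} [Field K] [NumberField K]

omit [NumberField K] in
theorem co_add (a b : 𝓞 K) : ((a + b : 𝓞 K) : K) = a + b := map_add (algebraMap (𝓞 K) K) a b

omit [NumberField K] in
theorem co_sub (a b : 𝓞 K) : ((a - b : 𝓞 K) : K) = a - b := map_sub (algebraMap (𝓞 K) K) a b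

omit [NumberField K] in
theorem co_mul (a b : 𝓞 K) : ((a * b : 𝓞 K) : K) = a * b := map_mul (algebraMap (𝓞 K) K) a b

omit [NumberField K] in
theorem co_zero : ((0 : 𝓞 K) : K) = 0 := map_zero (algebraMap (𝓞 K) K)

theorem nm_nonneg (a : K) : 0 ≤ nm a := by
  unfold nm pm
  exact Finset.prod_nonneg fun w _ => pow_nonneg (apply_nonneg w a) _

theorem nm_natCast (hNRM : T_NRM K) (n : ℕ) : nm (n : K) = (n : ℝ) ^ dg K := by
  obtain ⟨-, -, -, h4, -, -, -⟩ := hNRM
  rw [← h4]
  unfold nm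
  congr 1
  funext w
  rw [← InfinitePlace.norm_embedding_eq, map_natCast, Complex.norm_natCast]

/-- the norm of a nonzero difference of values -/
theorem nm_values (hNRM : T_NRM K) {n₀ : ℕ} (a b : 𝓞 K) (x y : K) (P Q : 𝓞 K)
    (hP : (n₀ : K) * x = P) (hQ : (n₀ : K) * y = Q) (hxy : x * a + y * b ≠ 0) (hn : 1 ≤ n₀) :
    (Ideal.absNorm (Ideal.span {a, b}) : ℝ) ≤ (n₀ : ℝ) ^ dg K * nm (x * a + y * b) := by
  have hn0 : (n₀ : K) ≠ 0 := by
    have h : n₀ ≠ 0 := by omega
    exact_mod_cast h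
  have h1 : (n₀ : K) * (x * a + y * b) = ((P * a + Q * b : 𝓞 K) : K) := by
    rw [co_add, co_mul, co_mul, ← hP, ← hQ]
    ring
  have h2 : P * a + Q * b ∈ Ideal.span {a, b} := Ideal.mem_span_pair.2 ⟨P, Q, rfl⟩
  have h3 : P * a + Q * b ≠ 0 := by
    intro h
    rw [h, co_zero] at h1
    exact (mul_ne_zero hn0 hxy) h1
  have h4 := hNRM.1 _ _ h2 h3
  rw [← h1, hNRM.2.2.1, nm_natCast hNRM] at h4
  exact h4

/-- the norm of a nonzero difference of values in a fibre -/
theorem nm_fibre (hNRM : T_NRM K) {n₀ : ℕ} (a b a' b' : 𝓞 K) (x y : K) (P Q : 𝓞 K)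
    (hP : (n₀ : K) * x = P) (hQ : (n₀ : K) * y = Q) (hxy : x * a + y * b = 0)
    (hxy' : x * a' + y * b' ≠ 0) (hn : 1 ≤ n₀) (hab : Ideal.span {a, b} ≠ ⊥) :
    nm ((a * b' - a' * b : 𝓞 K) : K) ≤
      (n₀ : ℝ) ^ dg K * nm (x * a' + y * b') * Ideal.absNorm (Ideal.span {a, b}) := by
  have hn0 : (n₀ : K) ≠ 0 := by
    have h : n₀ ≠ 0 := by omega
    exact_mod_cast h
  have h1 : (n₀ : K) * (x * a' + y * b') = ((P * a' + Q * b' : 𝓞 K) : K) := by
    rw [co_add, co_mul, co_mul, ← hP, ← hQ]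
    ring
  have h0 : P * a + Q * b = 0 := by
    apply RingOfIntegers.ext
    rw [co_add, co_mul, co_mul, ← hP, ← hQ, co_zero]
    linear_combination (n₀ : K) * hxy
  have h3 : P * a' + Q * b' ≠ 0 := by
    intro h
    rw [h, co_zero] at h1
    exact (mul_ne_zero hn0 hxy') h1
  have h4 : Ideal.span {P * a' + Q * b'} * Ideal.span {a, b} ≤
      Ideal.span {a * b' - a' * b} := by
    rw [Ideal.span_mul_span, Ideal.span_le]
    intro z hz
    obtain ⟨u, hu, v, hv, hz⟩ := Set.mem_mul.1 hz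
    rw [Set.mem_singleton_iff] at hu
    rw [SetLike.mem_coe, Ideal.mem_span_singleton, ← hz, hu]
    rcases hv with hv | hv
    · refine ⟨Q, ?_⟩
      rw [hv]
      linear_combination a' * h0
    · rw [Set.mem_singleton_iff] at hv
      refine ⟨-P, ?_⟩
      rw [hv]
      linear_combination b' * h0
  have h5 := Ideal.absNorm_dvd_absNorm_of_le h4
  rw [map_mul] at h5
  have h6 : Ideal.absNorm (Ideal.span {P * a' + Q * b'}) *
      Ideal.absNorm (Ideal.span {a, b}) ≠ 0 := by
    apply mul_ne_zero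
    · rw [Ne, Ideal.absNorm_eq_zero_iff, Ideal.span_singleton_eq_bot]
      exact h3
    · rw [Ne, Ideal.absNorm_eq_zero_iff]
      exact hab
  have h7 := Nat.le_of_dvd (Nat.pos_of_ne_zero h6) h5
  have h8 : nm ((a * b' - a' * b : 𝓞 K) : K) ≤ nm ((P * a' + Q * b' : 𝓞 K) : K) *
      Ideal.absNorm (Ideal.span {a, b}) := by
    rw [hNRM.2.1, hNRM.2.1]
    exact_mod_cast h7
  rw [← h1, hNRM.2.2.1, nm_natCast hNRM] at h8
  exact h8

end

theorem pf_CNT (K : Type) [Field K] [NumberField K] (hLAT : T_LAT K) (hNRM : T_NRM K)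
    (hDUA : T_DUA K) : T_CNT K := by
  classical
  obtain ⟨C, hC, hlat⟩ := hLAT
  obtain ⟨-, hsub, -, -, n₀, hn, hden⟩ := hDUA
  have hn1 : (1 : ℝ) ≤ (n₀ : ℝ) ^ dg K := by
    apply one_le_pow₀
    exact_mod_cast hn
  refine ⟨4 * C ^ 2 * ((n₀ : ℝ) ^ dg K) ^ 2, ?_, ?_⟩
  · nlinarith [one_le_pow₀ hC (n := 2), one_le_pow₀ hn1 (n := 2),
      mul_le_mul (one_le_pow₀ hC (n := 2)) (one_le_pow₀ hn1 (n := 2)) (by positivity)
        (by positivity)]
  intro a b a' b' J S hΔ hJ hS hd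
  set Δ : 𝓞 K := a * b' - a' * b with hΔdef
  set M : ℝ := (n₀ : ℝ) ^ dg K with hM
  have hΔK : (Δ : K) ≠ 0 := by
    intro h
    exact hΔ (RingOfIntegers.ext (h.trans co_zero.symm))
  obtain ⟨w₀⟩ : Nonempty (InfinitePlace K) := inferInstance
  have hJ0 : 0 < J := lt_of_lt_of_le (InfinitePlace.pos_iff.2 hΔK) (hJ w₀)
  have hJd : nm (Δ : K) ≤ J ^ dg K := by
    rw [← hNRM.2.2.2.1]
    exact hNRM.2.2.2.2.2.1 _ _ (fun w => apply_nonneg w _) hJ
  have hmem : Δ ∈ Ideal.span {a, b} := Ideal.mem_span_pair.2 ⟨b', -a', by rw [hΔdef]; ring⟩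
  have hbot : Ideal.span {a, b} ≠ ⊥ := by
    intro h
    rw [h, Ideal.mem_bot] at hmem
    exact hΔ hmem
  set N : ℝ := (Ideal.absNorm (Ideal.span {a, b}) : ℝ) with hN
  have hN1 : 1 ≤ N := by
    have h : Ideal.absNorm (Ideal.span {a, b}) ≠ 0 := by
      rw [Ne, Ideal.absNorm_eq_zero_iff]
      exact hbot
    have h' : 1 ≤ Ideal.absNorm (Ideal.span {a, b}) := Nat.pos_of_ne_zero h
    rw [hN]
    exact_mod_cast h'
  have hNΔ : N ≤ nm (Δ : K) := hNRM.1 _ _ hmem hΔ
  have hΔ1 : 0 < nm (Δ : K) := by linarith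
  have hM0 : 0 < M := by linarith
  have hden2 : ∀ q ∈ S, ∀ q' ∈ S, ∃ P Q : 𝓞 K, (n₀ : K) * (q.1 - q'.1) = P ∧
      (n₀ : K) * (q.2 - q'.2) = Q := by
    intro q hq q' hq'
    obtain ⟨P, hP⟩ := hden _ (hsub _ _ (hS q hq).1 (hS q' hq').1)
    obtain ⟨Q, hQ⟩ := hden _ (hsub _ _ (hS q hq).2 (hS q' hq').2)
    exact ⟨P, Q, hP, hQ⟩
  -- the values
  set f : K × K → K := fun q => q.1 * a + q.2 * b with hf
  set g : K × K → K := fun q => q.1 * a' + q.2 * b' with hg
  have h1 : ((S.image f).card : ℝ) ≤ C * (1 + J ^ dg K / (N / M)) := by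
    have h := hlat (S.image f) (fun _ => J) (N / M) (by positivity) (fun _ => hJ0) ?_
    · rw [hNRM.2.2.2.1] at h
      exact h
    · intro t ht t' ht' htt
      obtain ⟨q, hq, rfl⟩ := Finset.mem_image.1 ht
      obtain ⟨q', hq', rfl⟩ := Finset.mem_image.1 ht'
      have he : f q - f q' = (q.1 - q'.1) * a + (q.2 - q'.2) * b := by
        simp only [hf]
        ring
      obtain ⟨P, Q, hP, hQ⟩ := hden2 q hq q' hq'
      refine ⟨fun w => ?_, ?_⟩
      · rw [he]
        exact (hd q hq q' hq' w).1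
      · rw [he, div_le_iff₀ hM0, mul_comm]
        exact nm_values hNRM a b _ _ P Q hP hQ (by rw [← he]; exact sub_ne_zero.2 htt) hn
  -- the fibres
  have h2 : ∀ t ∈ S.image f, (((S.filter fun q => f q = t).card : ℕ) : ℝ) ≤
      C * (1 + J ^ dg K / (nm (Δ : K) / (M * N))) := by
    intro t _
    have hinj : Set.InjOn g (S.filter fun q => f q = t) := by
      intro q hq q' hq' hgg
      rw [Finset.mem_coe, Finset.mem_filter] at hq hq'
      have e1 : (q.1 - q'.1) * a + (q.2 - q'.2) * b = 0 := by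
        have h := hq.2.trans hq'.2.symm
        simp only [hf] at h
        linear_combination h
      have e2 : (q.1 - q'.1) * a' + (q.2 - q'.2) * b' = 0 := by
        simp only [hg] at hgg
        linear_combination hgg
      have hΔe : (Δ : K) = a * b' - a' * b := by
        rw [hΔdef, co_sub, co_mul, co_mul]
      have e3 : (q.1 - q'.1) * (Δ : K) = 0 := by
        rw [hΔe]
        linear_combination (b' : K) * e1 - (b : K) * e2
      have e4 : (q.2 - q'.2) * (Δ : K) = 0 := by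
        rw [hΔe]
        linear_combination (a : K) * e2 - (a' : K) * e1
      have e5 := (mul_eq_zero.1 e3).resolve_right hΔK
      have e6 := (mul_eq_zero.1 e4).resolve_right hΔK
      exact Prod.ext (sub_eq_zero.1 e5) (sub_eq_zero.1 e6)
    rw [← Finset.card_image_of_injOn hinj]
    have h := hlat ((S.filter fun q => f q = t).image g) (fun _ => J) (nm (Δ : K) / (M * N))
      (by positivity) (fun _ => hJ0) ?_
    · rw [hNRM.2.2.2.1] at h
      exact h
    · intro u hu u' hu' huu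
      obtain ⟨q, hq, rfl⟩ := Finset.mem_image.1 hu
      obtain ⟨q', hq', rfl⟩ := Finset.mem_image.1 hu'
      rw [Finset.mem_filter] at hq hq'
      have he : g q - g q' = (q.1 - q'.1) * a' + (q.2 - q'.2) * b' := by
        simp only [hg]
        ring
      have e1 : (q.1 - q'.1) * a + (q.2 - q'.2) * b = 0 := by
        have h := hq.2.trans hq'.2.symm
        simp only [hf] at h
        linear_combination h
      obtain ⟨P, Q, hP, hQ⟩ := hden2 q hq.1 q' hq'.1
      refine ⟨fun w => ?_, ?_⟩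
      · rw [he]
        exact (hd q hq.1 q' hq'.1 w).2
      · have h3 := nm_fibre hNRM a b a' b' _ _ P Q hP hQ e1
          (by rw [← he]; exact sub_ne_zero.2 huu) hn hbot
        rw [he, div_le_iff₀ (by positivity)]
        calc nm (Δ : K) ≤ _ := h3
          _ = _ := by ring
  -- the count
  have h3 : (S.card : ℝ) ≤ ((S.image f).card : ℝ) *
      (C * (1 + J ^ dg K / (nm (Δ : K) / (M * N)))) := by
    rw [Finset.card_eq_sum_card_image f S]
    push_cast
    calc _ ≤ ∑ _t ∈ S.image f, C * (1 + J ^ dg K / (nm (Δ : K) / (M * N))) :=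
          Finset.sum_le_sum h2
      _ = _ := by rw [Finset.sum_const, nsmul_eq_mul]
  set X : ℝ := J ^ dg K with hX
  have hX0 : 0 < X := by positivity
  have h4 : C * (1 + X / (N / M)) ≤ 2 * C * (X * M / N) := by
    have e : X / (N / M) = X * M / N := by
      field_simp
    have e2 : 1 ≤ X * M / N := by
      rw [le_div_iff₀ (by linarith)]
      nlinarith
    rw [e]
    nlinarith
  have h5 : C * (1 + X / (nm (Δ : K) / (M * N))) ≤ 2 * C * (X * M * N / nm (Δ : K)) := by
    have e : X / (nm (Δ : K) / (M * N)) = X * M * N / nm (Δ : K) := by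
      field_simp
    have e2 : 1 ≤ X * M * N / nm (Δ : K) := by
      rw [le_div_iff₀ hΔ1]
      have e3 : X * 1 ≤ X * M := by nlinarith
      have e4 : X * M * 1 ≤ X * M * N := by nlinarith [mul_pos hX0 hM0]
      linarith
    rw [e]
    nlinarith
  have h6 : (S.card : ℝ) ≤ (2 * C * (X * M / N)) * (2 * C * (X * M * N / nm (Δ : K))) := by
    refine h3.trans (mul_le_mul (h1.trans h4) h5 ?_ ?_)
    · positivity
    · positivity
  have h7 : (2 * C * (X * M / N)) * (2 * C * (X * M * N / nm (Δ : K))) * nm (Δ : K) =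
      4 * C ^ 2 * M ^ 2 * X ^ 2 := by
    field_simp
    ring
  have h8 : J ^ (2 * dg K) = X ^ 2 := by
    rw [hX, ← pow_mul, mul_comm 2]
  rw [h8, ← h7]
  exact mul_le_mul_of_nonneg_right h6 hΔ1.le

end Pool.Agent.H14.RK
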