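import Pool.Agent.H32.RK.TargetsB

/-!
# Module DLT of MP_63b6b1_nt over a number field: two combinations of the monomials
-/

set_option autoImplicit false

open Finset NumberField Pool.Agent.H32.RQ Pool.Agent.H32.RK

namespace Pool.Agent.H14.RK

section

variable {K : Type} [Field K] [NumberField K] {s : ℕ}

/-- the embedding of a place on integers -/
noncomputable def ew (w : InfinitePlace K) : 𝓞 K →+* ℂ := w.embedding.comp (algebraMap (𝓞 K) K)

omit [NumberField K] in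
theorem norm_ew (w : InfinitePlace K) (a : 𝓞 K) : ‖ew w a‖ = w (a : K) :=
  InfinitePlace.norm_embedding_eq w (a : K)

/-- the minor of the monomials -/
def mp {R : Type} [CommRing R] (x y : Fin s → R) (p q : Mon s) : R :=
  nu x p * nu y q - nu x q * nu y p

omit [NumberField K] in
theorem ew_nu (w : InfinitePlace K) (x : Fin s → 𝓞 K) (p : Mon s) :
    nu (fun i => ew w (x i)) p = ew w (nu x p) := by
  unfold nu
  rw [map_mul]

omit [NumberField K] in
theorem ew_mp (w : InfinitePlace K) (x y : Fin s → 𝓞 K) (p q : Mon s) :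
    mp (fun i => ew w (x i)) (fun i => ew w (y i)) p q = ew w (mp x y p q) := by
  unfold mp
  rw [ew_nu, ew_nu, ew_nu, ew_nu, map_sub, map_mul, map_mul]

omit [NumberField K] in
theorem cb_det (x y : Fin s → 𝓞 K) (a a' : Mon s → ℤ) :
    cb a x * cb a' y - cb a' x * cb a y =
      ∑ q, (∑ p, (a p : 𝓞 K) * mp x y p q) * (a' q : 𝓞 K) := by
  unfold cb mp
  rw [Finset.sum_mul_sum, Finset.sum_mul_sum, Finset.sum_comm, ← Finset.sum_sub_distrib]
  refine Finset.sum_congr rfl fun q _ => ?_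
  rw [Finset.sum_mul, ← Finset.sum_sub_distrib]
  refine Finset.sum_congr rfl fun p _ => ?_
  ring

end

theorem pf_DLT (K : Type) [Field K] [NumberField K] (hLIN : T_LIN) (hDL1 : T_DL1) :
    T_DLT K := by
  classical
  intro s
  set m := md s with hm
  set e : Mon s ≃ Fin m := Fintype.equivFin _ with he
  set e1 := Fintype.equivFin (InfinitePlace K × Mon s) with he1
  set e2 := Fintype.equivFin (InfinitePlace K) with he2
  obtain ⟨T₁, c₁, hc₁, hL₁⟩ := hLIN m (Fintype.card (InfinitePlace K × Mon s))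
  obtain ⟨T₂, c₂, hc₂, hL₂⟩ := hLIN m (Fintype.card (InfinitePlace K))
  refine ⟨((T₁ : ℝ) + T₂ + 1) ^ m, c₂ * c₁ / 64, by positivity, ?_⟩
  intro B x y hBx hBy hGx hGy
  obtain ⟨t₁, ht₁, h1⟩ := hL₁ fun k r => ew (e1.symm k).1 (mp x y (e.symm r) (e1.symm k).2)
  obtain ⟨t₂, ht₂, h2⟩ := hL₂ fun k r => ew (e2.symm k)
    (∑ p, ((t₁ : ℤ) ^ (e p : ℕ) : ℤ) * mp x y p (e.symm r))
  refine ⟨fun p => (t₁ : ℤ) ^ (e p : ℕ), fun q => (t₂ : ℤ) ^ (e q : ℕ), ?_, ?_⟩
  · have hpow : ∀ t : ℕ, (t : ℝ) ≤ (T₁ : ℝ) + T₂ + 1 → ∀ p : Mon s,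
        |(((t : ℤ) ^ (e p : ℕ) : ℤ) : ℝ)| ≤ ((T₁ : ℝ) + T₂ + 1) ^ m := by
      intro t ht p
      push_cast
      rw [abs_of_nonneg (by positivity)]
      have h3 : (1 : ℝ) ≤ (T₁ : ℝ) + T₂ + 1 := by
        have h4 : (0 : ℝ) ≤ T₁ := Nat.cast_nonneg _
        have h5 : (0 : ℝ) ≤ T₂ := Nat.cast_nonneg _
        linarith
      exact (pow_le_pow_left₀ (Nat.cast_nonneg _) ht _).trans
        (pow_le_pow_right₀ h3 (e p).isLt.le)
    have h4 : (0 : ℝ) ≤ T₁ := Nat.cast_nonneg _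
    have h5 : (0 : ℝ) ≤ T₂ := Nat.cast_nonneg _
    have h6 : (t₁ : ℝ) ≤ T₁ := by exact_mod_cast ht₁
    have h7 : (t₂ : ℝ) ≤ T₂ := by exact_mod_cast ht₂
    exact fun p => ⟨hpow t₁ (by linarith) p, hpow t₂ (by linarith) p⟩
  · intro i j w
    -- the minor at the place
    obtain ⟨p, q, hpq⟩ := hDL1 s B (fun i => ew w (x i)) (fun i => ew w (y i))
      (fun i => by rw [norm_ew]; exact hBx i w) (fun i => by rw [norm_ew]; exact hBy i w)
      (by
        obtain ⟨i, hi⟩ := hGx w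
        exact ⟨i, by rw [norm_ew]; exact hi⟩)
      (by
        obtain ⟨i, hi⟩ := hGy w
        exact ⟨i, by rw [norm_ew]; exact hi⟩)
    have h3 := hpq i j
    have h4 : mnr (fun i => ew w (x i)) (fun i => ew w (y i)) i j = ew w (mnr x y i j) := by
      unfold mnr
      rw [map_sub, map_mul, map_mul]
    have h5 : nu (fun i => ew w (x i)) p * nu (fun i => ew w (y i)) q -
        nu (fun i => ew w (x i)) q * nu (fun i => ew w (y i)) p = ew w (mp x y p q) :=
      ew_mp w x y p q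
    rw [h4, h5, norm_ew] at h3
    -- the first combination
    have h6 := h1 (e1 (w, q)) (e p)
    simp only [Equiv.symm_apply_apply] at h6
    have h7 : ∑ r : Fin m, ew w (mp x y (e.symm r) q) * (t₁ : ℂ) ^ (r : ℕ) =
        ew w (∑ p, ((t₁ : ℤ) ^ (e p : ℕ) : ℤ) * mp x y p q) := by
      rw [map_sum, ← Equiv.sum_comp e]
      refine Finset.sum_congr rfl fun p _ => ?_
      rw [Equiv.symm_apply_apply, map_mul, map_intCast]
      push_cast
      ring
    rw [h7] at h6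
    -- the second combination
    have h8 := h2 (e2 w) (e q)
    simp only [Equiv.symm_apply_apply] at h8
    have h9 : ∑ r : Fin m, ew w (∑ p, ((t₁ : ℤ) ^ (e p : ℕ) : ℤ) * mp x y p (e.symm r)) *
        (t₂ : ℂ) ^ (r : ℕ) =
        ew w (cb (fun p => (t₁ : ℤ) ^ (e p : ℕ)) x * cb (fun q => (t₂ : ℤ) ^ (e q : ℕ)) y -
          cb (fun q => (t₂ : ℤ) ^ (e q : ℕ)) x * cb (fun p => (t₁ : ℤ) ^ (e p : ℕ)) y) := by
      rw [cb_det, map_sum, ← Equiv.sum_comp e]
      refine Finset.sum_congr rfl fun q _ => ?_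
      rw [Equiv.symm_apply_apply, map_mul, map_intCast]
      push_cast
      ring
    rw [h9] at h8
    have h10 : c₂ * c₁ / 64 * B ^ 2 * w ((mnr x y i j : 𝓞 K) : K) =
        c₂ * c₁ / 64 * (B ^ 2 * w ((mnr x y i j : 𝓞 K) : K)) := by ring
    rw [h10]
    calc c₂ * c₁ / 64 * (B ^ 2 * w ((mnr x y i j : 𝓞 K) : K))
        ≤ c₂ * c₁ / 64 * (64 * ‖ew w (mp x y p q)‖) :=
          mul_le_mul_of_nonneg_left h3 (by positivity)
      _ = c₂ * (c₁ * ‖ew w (mp x y p q)‖) := by ring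
      _ ≤ c₂ * ‖ew w (∑ p, ((t₁ : ℤ) ^ (e p : ℕ) : ℤ) * mp x y p q)‖ :=
          mul_le_mul_of_nonneg_left h6 hc₂.le
      _ ≤ _ := h8.trans_eq (norm_ew w _)

end Pool.Agent.H14.RK
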