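import Pool.Agent.H14.RK.RA1b

set_option autoImplicit false

/-!
# Module RA1 of MP_8f7db2_an: the ray inequality, real form
-/

open MeasureTheory Set Filter
open scoped ENNReal Topology

namespace Pool.Agent.H14.RK

open Pool.Agent.H92.RK

theorem pf_RA1 : T_RA1 := by
  intro τ c w₁ hB S ρ f f' hS hρ hrv hC hf00 ⟨R₀, hR₀⟩ hsupp
  obtain ⟨hd, hf'c⟩ := hC
  have hfc : Continuous f := continuous_iff_continuousAt.mpr (fun x => (hd x).continuousAt)
  have hτ : 0 < τ := by linarith [hB.one_le]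
  obtain ⟨R, hR0, hR⟩ : ∃ R : ℝ, 0 < R ∧ ∀ r, R ≤ r → f r = 0 :=
    ⟨max R₀ 1, lt_of_lt_of_le one_pos (le_max_right _ _),
      fun r hr => hR₀ r ((le_max_left _ _).trans hr)⟩
  -- off the support
  have hev : ∀ r, r ∉ tsupport f → ∀ᶠ s in 𝓝 r, s ∉ tsupport f := fun r hr =>
    (isClosed_tsupport f).isOpen_compl.mem_nhds hr
  have hf0 : ∀ r, r ∉ tsupport f → f r = 0 := fun r hr => image_eq_zero_of_notMem_tsupport hr
  have hf'0 : ∀ r, r ∉ tsupport f → f' r = 0 := by
    intro r hr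
    have h1 : f =ᶠ[𝓝 r] fun _ => (0 : ℝ) := by
      filter_upwards [hev r hr] with s hs
      exact hf0 s hs
    exact (hd r).unique ((hasDerivAt_const r (0 : ℝ)).congr_of_eventuallyEq h1)
  have hnot : ∀ r, R < r → r ∉ tsupport f := by
    intro r hr hmem
    have h1 : tsupport f ⊆ Iic R := by
      refine closure_minimal (fun s hs => ?_) isClosed_Iic
      by_contra hc
      exact hs (hR s (not_le.mp hc).le)
    exact absurd (h1 hmem) (not_le.mpr hr)
  -- bound of f
  obtain ⟨M, hM⟩ := (isCompact_Icc (a := (0 : ℝ)) (b := R)).exists_bound_of_continuousOn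
    hf'c.continuousOn
  have hM0 : 0 ≤ M := (norm_nonneg _).trans (hM 0 ⟨le_rfl, hR0.le⟩)
  have hfb : ∀ r, 0 ≤ r → r ≤ R → |f r| ≤ M * r := by
    intro r h0 h1
    have h := norm_image_sub_le_of_norm_deriv_le_segment'
      (f := f) (f' := f') (a := 0) (b := R) (C := M)
      (fun x _ => (hd x).hasDerivWithinAt) (fun x hx => hM x ⟨hx.1, hx.2.le⟩) r ⟨h0, h1⟩
    simpa [hf00, Real.norm_eq_abs] using h
  have hfsq : ∀ r, 0 ≤ r → r ≤ R → f r ^ 2 ≤ M ^ 2 * r ^ 2 := by
    intro r h0 h1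
    have h := hfb r h0 h1
    have h2 := pow_le_pow_left₀ (abs_nonneg _) h 2
    rw [sq_abs] at h2
    nlinarith
  have hf'sq : ∀ r, 0 ≤ r → r ≤ R → f' r ^ 2 ≤ M ^ 2 := by
    intro r h0 h1
    have h := hM r ⟨h0, h1⟩
    have h2 := pow_le_pow_left₀ (norm_nonneg _) h 2
    rw [Real.norm_eq_abs, sq_abs] at h2
    exact h2
  -- integrability
  have hI1 : IntegrableOn (fun r => (f' r ^ 2 + f r ^ 2 / r ^ 2) * r) (Ioi 0) := by
    refine integrable_aux (R := R) (M := (M ^ 2 + M ^ 2) * R) ?_ ?_ ?_ hR0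
    · refine ContinuousOn.mul (ContinuousOn.add (hf'c.pow 2).continuousOn ?_)
        continuous_id.continuousOn
      exact (hfc.pow 2).continuousOn.div (continuous_id.pow 2).continuousOn
        (fun r hr => pow_ne_zero 2 (ne_of_gt hr))
    · intro r hr0 hrR
      have h1 : f r ^ 2 / r ^ 2 ≤ M ^ 2 := by
        rw [div_le_iff₀ (by positivity)]
        exact hfsq r hr0.le hrR
      have h2 := hf'sq r hr0.le hrR
      rw [abs_of_nonneg (by positivity)]
      exact mul_le_mul (add_le_add h2 h1) hrR hr0.le (by positivity)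
    · intro r hr
      have := hnot r hr
      simp [hf0 r this, hf'0 r this]
  have hI2 : IntegrableOn (fun r => 4 * τ * r ^ 2 / (ρ * min (r ^ 2) ρ) * f r ^ 2 * r)
      (Ioi 0) := by
    refine integrable_aux (R := R) (M := 4 * τ / ρ * (1 + R ^ 2 / ρ) * (M ^ 2 * R ^ 2) * R)
      ?_ ?_ ?_ hR0
    · refine ContinuousOn.mul (ContinuousOn.mul ?_ (hfc.pow 2).continuousOn)
        continuous_id.continuousOn
      refine ContinuousOn.div (continuous_const.mul (continuous_id.pow 2)).continuousOn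
        (continuous_const.mul ((continuous_id.pow 2).min continuous_const)).continuousOn
        (fun r hr => ?_)
      have h1 : (0 : ℝ) < r := hr
      have h2 : 0 < min (r ^ 2) ρ := lt_min (by positivity) hρ
      exact (mul_pos hρ h2).ne'
    · intro r hr0 hrR
      have h2 : 0 < min (r ^ 2) ρ := lt_min (by positivity) hρ
      have h3 : r ^ 2 / min (r ^ 2) ρ ≤ 1 + R ^ 2 / ρ := by
        rcases min_cases (r ^ 2) ρ with h | h
        · rw [h.1, div_self (by positivity)]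
          have : 0 ≤ R ^ 2 / ρ := by positivity
          linarith
        · rw [h.1]
          have : r ^ 2 / ρ ≤ R ^ 2 / ρ := by gcongr
          linarith
      have h4 : 4 * τ * r ^ 2 / (ρ * min (r ^ 2) ρ) = 4 * τ / ρ * (r ^ 2 / min (r ^ 2) ρ) := by
        field_simp
      have h5 : f r ^ 2 ≤ M ^ 2 * R ^ 2 :=
        (hfsq r hr0.le hrR).trans (by gcongr)
      rw [h4, abs_of_nonneg (by positivity)]
      gcongr
    · intro r hr
      simp [hf0 r (hnot r hr)]
  refine ⟨hI1, hI2, ?_⟩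
  -- the calibration
  set y := yy S with hy
  have hyd : ∀ r ∈ S, HasDerivAt y (2 * r) r := fun r hr => yy_deriv hS hr
  have hy0 : ∀ r, 0 < r → r ∈ S → 0 < y r := fun r h h' => yy_pos hS h h'
  have hy1 : ∀ r, 0 < r → r ∈ S → y r < ρ := fun r h h' => yy_lt_rho hS hρ hrv h h'
  have hy2 : ∀ r, 0 < r → y r ≤ r ^ 2 := fun r h => yy_le_sq hS h.le
  set H : ℝ → ℝ := fun r => f r ^ 2 * KK c w₁ y ρ r with hH
  set D : ℝ → ℝ := fun r => 2 * f r * f' r * KK c w₁ y ρ r + f r ^ 2 * KD τ c w₁ y ρ r with hD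
  have hHd : ∀ r, 0 < r → HasDerivAt H (D r) r := by
    intro r hr
    by_cases hm : r ∈ tsupport f
    · have hrS := hsupp hm
      have h1 := (hd r).pow 2
      have h2 := h1.mul (KK_deriv hB hρ (hyd r hrS) (hy0 r hr hrS) (hy1 r hr hrS))
      have h3 : D r = ((2 : ℕ) : ℝ) * f r ^ (2 - 1) * f' r * KK c w₁ y ρ r +
          (f ^ 2) r * KD τ c w₁ y ρ r := by
        simp [hD]
      rw [h3]
      exact h2
    · have h1 : H =ᶠ[𝓝 r] fun _ => (0 : ℝ) := by
        filter_upwards [hev r hm] with s hs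
        simp [hH, hf0 s hs]
      have h2 : D r = 0 := by simp [hD, hf0 r hm, hf'0 r hm]
      rw [h2]
      exact (hasDerivAt_const r (0 : ℝ)).congr_of_eventuallyEq h1
  have hDc : ∀ r, 0 < r → ContinuousAt D r := by
    intro r hr
    by_cases hm : r ∈ tsupport f
    · have hrS := hsupp hm
      obtain ⟨h1, h2⟩ := KK_cont hB hρ (hyd r hrS).continuousAt (hy0 r hr hrS) (hy1 r hr hrS)
      have h3 : ContinuousAt f r := hfc.continuousAt
      have h4 : ContinuousAt f' r := hf'c.continuousAt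
      exact (((continuousAt_const.mul h3).mul h4).mul h1).add ((h3.pow 2).mul h2)
    · have h1 : (fun _ => (0 : ℝ)) =ᶠ[𝓝 r] D := by
        filter_upwards [hev r hm] with s hs
        simp [hD, hf0 s hs, hf'0 s hs]
      exact continuousAt_const.congr h1
  -- pointwise inequality
  have hpt : ∀ r, 0 < r → 4 * τ * r ^ 2 / (ρ * min (r ^ 2) ρ) * f r ^ 2 * r + D r ≤
      (f' r ^ 2 + f r ^ 2 / r ^ 2) * r := by
    intro r hr
    by_cases hm : r ∈ tsupport f
    · have hrS := hsupp hm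
      have e0 := hy0 r hr hrS
      have e1 := hy1 r hr hrS
      have e2 := hy2 r hr
      have ht0 : 0 < y r / ρ := div_pos e0 hρ
      have ht1 : y r / ρ < 1 := (div_lt_one hρ).mpr e1
      have hc : 0 < c (y r / ρ) := hB.pos _ ht0.le ht1
      have key := point_id (τ := τ) (w := w₁ (y r / ρ)) (f := f r) (f' := f' r) hr.ne' hρ.ne'
        ht0.ne' hc.ne'
      have h1 : 4 * τ * r ^ 2 / (ρ * min (r ^ 2) ρ) ≤ 4 * τ * r ^ 2 / (ρ * (y r / ρ * ρ)) := by
        rw [div_mul_cancel₀ _ hρ.ne']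
        have : y r ≤ min (r ^ 2) ρ := le_min e2 e1.le
        gcongr
      have h2 : 4 * τ * r ^ 2 / (ρ * min (r ^ 2) ρ) * f r ^ 2 * r ≤
          4 * τ * r ^ 2 / (ρ * (y r / ρ * ρ)) * f r ^ 2 * r := by
        gcongr
      have h3 : 0 ≤ 1 / r * (f r + r * f' r -
          2 * r ^ 2 / ρ * (w₁ (y r / ρ) / (y r / ρ * c (y r / ρ))) * f r) ^ 2 := by positivity
      simp only [hD, KK, KD]
      linarith
    · simp [hD, hf0 r hm, hf'0 r hm]
  -- integration on an interval
  have hint : ∀ ε, 0 < ε → ε < R →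
      ∫ r in ε..R, 4 * τ * r ^ 2 / (ρ * min (r ^ 2) ρ) * f r ^ 2 * r ≤
        (∫ r in ε..R, (f' r ^ 2 + f r ^ 2 / r ^ 2) * r) + H ε := by
    intro ε hε hεR
    have hsub : Ioc ε R ⊆ Ioi (0 : ℝ) := fun s hs => hε.trans hs.1
    have i1 : IntervalIntegrable (fun r => (f' r ^ 2 + f r ^ 2 / r ^ 2) * r) volume ε R :=
      (intervalIntegrable_iff_integrableOn_Ioc_of_le hεR.le).mpr (hI1.mono_set hsub)
    have i2 : IntervalIntegrable (fun r => 4 * τ * r ^ 2 / (ρ * min (r ^ 2) ρ) * f r ^ 2 * r)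
        volume ε R :=
      (intervalIntegrable_iff_integrableOn_Ioc_of_le hεR.le).mpr (hI2.mono_set hsub)
    have hu : ∀ x ∈ uIcc ε R, 0 < x := by
      intro x hx
      rw [uIcc_of_le hεR.le] at hx
      exact hε.trans_le hx.1
    have i3 : IntervalIntegrable D volume ε R :=
      ContinuousOn.intervalIntegrable (fun x hx => (hDc x (hu x hx)).continuousWithinAt)
    have h1 := intervalIntegral.integral_eq_sub_of_hasDerivAt
      (fun x hx => hHd x (hu x hx)) i3
    have h2 : H R = 0 := by simp [hH, hR R le_rfl]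
    have h3 : ∫ r in ε..R, (4 * τ * r ^ 2 / (ρ * min (r ^ 2) ρ) * f r ^ 2 * r + D r) ≤
        ∫ r in ε..R, (f' r ^ 2 + f r ^ 2 / r ^ 2) * r :=
      intervalIntegral.integral_mono_on hεR.le (i2.add i3) i1
        (fun x hx => hpt x (hε.trans_le hx.1))
    rw [intervalIntegral.integral_add i2 i3, h1, h2] at h3
    linarith
  -- the limit of H
  have hHlim : Tendsto H (𝓝[>] 0) (𝓝 0) := by
    by_cases hm : (0 : ℝ) ∈ tsupport f
    · have h0S := hsupp hm
      obtain ⟨δ, hδ, hδS⟩ := exists_Ioo hS h0S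
      have hδS' : Ioo 0 δ ⊆ S := fun s hs => hδS ⟨by linarith [hs.1], by linarith [hs.2]⟩
      have h1 : H =ᶠ[𝓝[>] 0] fun r => f r ^ 2 * (2 * (w₁ (r ^ 2 / ρ) / c (r ^ 2 / ρ)) - 1) := by
        filter_upwards [Ioo_mem_nhdsGT hδ] with r hr
        have hr0 : 0 < r := hr.1
        have e : y r = r ^ 2 := yy_eq_sq hδS' hr
        simp only [hH, KK, e]
        have hr2 : r ^ 2 / ρ ≠ 0 := by positivity
        congr 1
        congr 1
        rw [mul_comm (r ^ 2 / ρ) (c (r ^ 2 / ρ)), ← div_div]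
        field_simp
      have h2 : ContinuousAt (fun r => f r ^ 2 * (2 * (w₁ (r ^ 2 / ρ) / c (r ^ 2 / ρ)) - 1)) 0 := by
        have e0 : (0 : ℝ) ^ 2 / ρ = 0 := by simp
        have ht : ContinuousAt (fun r : ℝ => r ^ 2 / ρ) 0 :=
          ((continuousAt_id).pow 2).div_const ρ
        have hcc : ContinuousAt (fun r : ℝ => c (r ^ 2 / ρ)) 0 :=
          ContinuousAt.comp (hB.smooth.continuous.continuousAt (x := (0 : ℝ) ^ 2 / ρ)) ht
        have hwc : ContinuousAt (fun r : ℝ => w₁ (r ^ 2 / ρ)) 0 :=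
          ContinuousAt.comp ((hB.dw1 ((0 : ℝ) ^ 2 / ρ)).continuousAt) ht
        have hne : c ((0 : ℝ) ^ 2 / ρ) ≠ 0 := by rw [e0, hB.zero]; exact one_ne_zero
        exact (hfc.continuousAt.pow 2).mul
          ((continuousAt_const.mul (hwc.div hcc hne)).sub continuousAt_const)
      have h3 : Tendsto (fun r => f r ^ 2 * (2 * (w₁ (r ^ 2 / ρ) / c (r ^ 2 / ρ)) - 1))
          (𝓝[>] 0) (𝓝 0) := by
        have h4 := h2.tendsto
        simp only [hf00] at h4
        have h5 : ((0 : ℝ) ^ 2 * (2 * (w₁ ((0 : ℝ) ^ 2 / ρ) / c ((0 : ℝ) ^ 2 / ρ)) - 1)) = 0 := by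
          simp
        rw [h5] at h4
        exact h4.mono_left nhdsWithin_le_nhds
      exact h3.congr' h1.symm
    · have h1 : H =ᶠ[𝓝[>] 0] fun _ => (0 : ℝ) := by
        have h2 : ∀ᶠ s in 𝓝[>] (0 : ℝ), s ∉ tsupport f :=
          nhdsWithin_le_nhds (hev 0 hm)
        filter_upwards [h2] with s hs
        simp [hH, hf0 s hs]
      exact tendsto_const_nhds.congr' h1.symm
  -- reduce to the interval
  have hred : ∀ g : ℝ → ℝ, IntegrableOn g (Ioi 0) → (∀ r, R < r → g r = 0) →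
      ∫ r in Ioi (0 : ℝ), g r = ∫ r in (0 : ℝ)..R, g r := by
    intro g hg h0
    rw [intervalIntegral.integral_of_le hR0.le]
    refine setIntegral_eq_of_subset_of_forall_sdiff_eq_zero measurableSet_Ioi
      Ioc_subset_Ioi_self (fun r hr => h0 r ?_)
    by_contra hc
    exact hr.2 ⟨hr.1, not_lt.mp hc⟩
  have hlimg : ∀ g : ℝ → ℝ, IntegrableOn g (Ioi 0) →
      Tendsto (fun ε => ∫ r in ε..R, g r) (𝓝[>] 0) (𝓝 (∫ r in (0 : ℝ)..R, g r)) := by
    intro g hg
    have h1 : IntegrableOn g (uIcc 0 R) := by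
      rw [uIcc_of_le hR0.le, integrableOn_Icc_iff_integrableOn_Ioc]
      exact hg.mono_set Ioc_subset_Ioi_self
    have h2 := intervalIntegral.continuousOn_primitive_interval_left h1
    have h3 := h2 0 (by rw [uIcc_of_le hR0.le]; exact ⟨le_rfl, hR0.le⟩)
    rw [uIcc_of_le hR0.le] at h3
    refine h3.tendsto.mono_left ?_
    rw [nhdsWithin_le_iff]
    exact mem_of_superset (Ioo_mem_nhdsGT hR0) (fun s hs => ⟨hs.1.le, hs.2.le⟩)
  rw [hred _ hI2 (fun r hr => by simp [hf0 r (hnot r hr)]),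
    hred _ hI1 (fun r hr => by simp [hf0 r (hnot r hr), hf'0 r (hnot r hr)])]
  have hfin : ∀ᶠ ε in 𝓝[>] (0 : ℝ),
      ∫ r in ε..R, 4 * τ * r ^ 2 / (ρ * min (r ^ 2) ρ) * f r ^ 2 * r ≤
        (∫ r in ε..R, (f' r ^ 2 + f r ^ 2 / r ^ 2) * r) + H ε := by
    filter_upwards [Ioo_mem_nhdsGT hR0] with ε hε
    exact hint ε hε.1 hε.2
  have hA := hlimg _ hI2
  have hBB := (hlimg _ hI1).add hHlim
  rw [add_zero] at hBB
  exact le_of_tendsto_of_tendsto hA hBB hfin

end Pool.Agent.H14.RK
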