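import Pool.Agent.H92.RK.Targets

set_option autoImplicit false

/-!
# Module RA1 of MP_8f7db2_an, first part: the length function of a ray
-/

open MeasureTheory Set Filter
open scoped ENNReal Topology

namespace Pool.Agent.H14.RK

open Pool.Agent.H92.RK

/-- the density -/
noncomputable def phi (S : Set ℝ) : ℝ → ℝ := S.indicator (fun s => 2 * s)

/-- the length function -/
noncomputable def yy (S : Set ℝ) (r : ℝ) : ℝ := ∫ s in (0 : ℝ)..r, phi S s

theorem phi_meas {S : Set ℝ} (hS : IsOpen S) : Measurable (phi S) :=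
  (measurable_const.mul measurable_id).indicator hS.measurableSet

theorem phi_ii {S : Set ℝ} (hS : IsOpen S) (a b : ℝ) : IntervalIntegrable (phi S) volume a b := by
  rw [intervalIntegrable_iff]
  have h : IntegrableOn (fun s : ℝ => 2 * s) (uIoc a b) :=
    intervalIntegrable_iff.mp ((continuous_const.mul continuous_id).intervalIntegrable a b)
  exact Integrable.indicator h hS.measurableSet

theorem phi_nonneg {S : Set ℝ} {s : ℝ} (hs : 0 ≤ s) : 0 ≤ phi S s := by
  unfold phi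
  by_cases h : s ∈ S
  · rw [Set.indicator_of_mem h]; positivity
  · rw [Set.indicator_of_notMem h]

theorem phi_le {S : Set ℝ} {s : ℝ} (hs : 0 ≤ s) : phi S s ≤ 2 * s := by
  unfold phi
  by_cases h : s ∈ S
  · rw [Set.indicator_of_mem h]
  · rw [Set.indicator_of_notMem h]; positivity

theorem int_two (a b : ℝ) : ∫ s in a..b, 2 * s = b ^ 2 - a ^ 2 := by
  rw [intervalIntegral.integral_const_mul, integral_id]
  ring

theorem int_phi {S : Set ℝ} {a b : ℝ} (hab : a ≤ b) (h : Ioo a b ⊆ S) :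
    ∫ s in a..b, phi S s = b ^ 2 - a ^ 2 := by
  rw [← int_two, intervalIntegral.integral_of_le hab, intervalIntegral.integral_of_le hab,
    integral_Ioc_eq_integral_Ioo, integral_Ioc_eq_integral_Ioo]
  refine setIntegral_congr_fun measurableSet_Ioo (fun s hs => ?_)
  simp only [phi]
  rw [Set.indicator_of_mem (h hs)]

theorem yy_sub {S : Set ℝ} (hS : IsOpen S) (a b : ℝ) :
    yy S b = yy S a + ∫ s in a..b, phi S s := by
  unfold yy
  rw [intervalIntegral.integral_add_adjacent_intervals (phi_ii hS _ _) (phi_ii hS _ _)]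

theorem yy_nonneg {S : Set ℝ} {r : ℝ} (hr : 0 ≤ r) : 0 ≤ yy S r :=
  intervalIntegral.integral_nonneg hr (fun _ hu => phi_nonneg hu.1)

theorem yy_mono {S : Set ℝ} (hS : IsOpen S) {a b : ℝ} (ha : 0 ≤ a) (hab : a ≤ b) :
    yy S a ≤ yy S b := by
  rw [yy_sub hS a b]
  have : 0 ≤ ∫ s in a..b, phi S s :=
    intervalIntegral.integral_nonneg hab (fun _ hu => phi_nonneg (ha.trans hu.1))
  linarith

theorem yy_le_sq {S : Set ℝ} (hS : IsOpen S) {r : ℝ} (hr : 0 ≤ r) : yy S r ≤ r ^ 2 := by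
  have h : ∫ s in (0 : ℝ)..r, phi S s ≤ ∫ s in (0 : ℝ)..r, 2 * s :=
    intervalIntegral.integral_mono_on hr (phi_ii hS _ _)
      ((continuous_const.mul continuous_id).intervalIntegrable _ _) (fun s hs => phi_le hs.1)
  rw [int_two] at h
  unfold yy
  linarith

theorem yy_eq_sq {S : Set ℝ} {δ r : ℝ} (h : Ioo 0 δ ⊆ S) (hr : r ∈ Ioo 0 δ) :
    yy S r = r ^ 2 := by
  unfold yy
  rw [int_phi hr.1.le (fun s hs => h ⟨hs.1, hs.2.trans hr.2⟩)]
  ring

theorem yy_deriv {S : Set ℝ} (hS : IsOpen S) {r : ℝ} (hr : r ∈ S) :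
    HasDerivAt (yy S) (2 * r) r := by
  have h1 : phi S =ᶠ[𝓝 r] fun s => 2 * s := by
    filter_upwards [hS.mem_nhds hr] with s hs
    exact Set.indicator_of_mem hs _
  have h2 : ContinuousAt (phi S) r :=
    (continuous_const.mul continuous_id).continuousAt.congr h1.symm
  have h3 := intervalIntegral.integral_hasDerivAt_right (phi_ii hS 0 r)
    ((phi_meas hS).stronglyMeasurable.stronglyMeasurableAtFilter) h2
  have h4 : phi S r = 2 * r := h1.self_of_nhds
  rw [h4] at h3
  exact h3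

theorem exists_Ioo {S : Set ℝ} (hS : IsOpen S) {r : ℝ} (hr : r ∈ S) :
    ∃ ε, 0 < ε ∧ Ioo (r - ε) (r + ε) ⊆ S := by
  obtain ⟨ε, hε, h⟩ := Metric.isOpen_iff.mp hS r hr
  exact ⟨ε, hε, fun s hs => h (by rw [Real.ball_eq_Ioo]; exact hs)⟩

theorem yy_pos {S : Set ℝ} (hS : IsOpen S) {r : ℝ} (hr0 : 0 < r) (hr : r ∈ S) :
    0 < yy S r := by
  obtain ⟨ε, hε, h⟩ := exists_Ioo hS hr
  have ha : 0 ≤ max (r - ε) 0 := le_max_right _ _
  have hab : max (r - ε) 0 < r := max_lt (by linarith) hr0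
  rw [yy_sub hS (max (r - ε) 0) r, int_phi hab.le
    (fun s hs => h ⟨(le_max_left _ _).trans_lt hs.1, by linarith [hs.2]⟩)]
  have h1 := yy_nonneg (S := S) ha
  nlinarith

theorem yy_le_rho {S : Set ℝ} (hS : IsOpen S) {ρ : ℝ} (hρ : 0 < ρ)
    (hrv : rv S = ENNReal.ofReal ρ) {x : ℝ} (hx : 0 ≤ x) : yy S x ≤ ρ := by
  rw [← ENNReal.ofReal_le_ofReal_iff hρ.le, ← hrv]
  unfold yy rv
  rw [intervalIntegral.integral_of_le hx, ofReal_integral_eq_lintegral_ofReal]
  · have h1 : ∀ s, ENNReal.ofReal (phi S s) = S.indicator (fun s => ENNReal.ofReal (2 * s)) s := by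
      intro s
      unfold phi
      by_cases h : s ∈ S
      · rw [Set.indicator_of_mem h, Set.indicator_of_mem h]
      · rw [Set.indicator_of_notMem h, Set.indicator_of_notMem h, ENNReal.ofReal_zero]
    simp_rw [h1]
    rw [lintegral_indicator hS.measurableSet, Measure.restrict_restrict hS.measurableSet]
    exact lintegral_mono_set (Set.inter_subset_inter_right _ Ioc_subset_Ioi_self)
  · exact (phi_ii hS 0 x).1
  · filter_upwards [ae_restrict_mem measurableSet_Ioc] with s hs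
    exact phi_nonneg hs.1.le

theorem yy_lt_rho {S : Set ℝ} (hS : IsOpen S) {ρ : ℝ} (hρ : 0 < ρ)
    (hrv : rv S = ENNReal.ofReal ρ) {r : ℝ} (hr0 : 0 < r) (hr : r ∈ S) : yy S r < ρ := by
  obtain ⟨ε, hε, h⟩ := exists_Ioo hS hr
  have h1 := yy_le_rho hS hρ hrv (x := r + ε) (by linarith)
  rw [yy_sub hS r (r + ε), int_phi (by linarith)
    (fun s hs => h ⟨by linarith [hs.1], hs.2⟩)] at h1
  nlinarith

end Pool.Agent.H14.RK
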