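import Pool.Agent.H14.RK.RA1a

set_option autoImplicit false

/-!
# Module RA1 of MP_8f7db2_an, second part: the calibration
-/

open MeasureTheory Set Filter
open scoped ENNReal Topology

namespace Pool.Agent.H14.RK

open Pool.Agent.H92.RK

/-- the calibration factor -/
noncomputable def KK (c w₁ y : ℝ → ℝ) (ρ r : ℝ) : ℝ :=
  2 / ρ * r ^ 2 * (w₁ (y r / ρ) / (y r / ρ * c (y r / ρ))) - 1

/-- its derivative -/
noncomputable def KD (τ : ℝ) (c w₁ y : ℝ → ℝ) (ρ r : ℝ) : ℝ :=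
  2 / ρ * (2 * r) * (w₁ (y r / ρ) / (y r / ρ * c (y r / ρ))) +
    2 / ρ * r ^ 2 * ((-τ * c (y r / ρ) * (2 * r / ρ) * (y r / ρ * c (y r / ρ)) -
      w₁ (y r / ρ) * (w₁ (y r / ρ) * (2 * r / ρ))) / (y r / ρ * c (y r / ρ)) ^ 2)

theorem KK_deriv {τ : ℝ} {c w₁ y : ℝ → ℝ} (hB : Bes τ c w₁) {ρ r : ℝ} (hρ : 0 < ρ)
    (hy : HasDerivAt y (2 * r) r) (hy0 : 0 < y r) (hy1 : y r < ρ) :
    HasDerivAt (KK c w₁ y ρ) (KD τ c w₁ y ρ r) r := by
  have ht : HasDerivAt (fun r => y r / ρ) (2 * r / ρ) r := hy.div_const ρ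
  have ht0 : 0 < y r / ρ := div_pos hy0 hρ
  have ht1 : y r / ρ < 1 := (div_lt_one hρ).mpr hy1
  have hc : 0 < c (y r / ρ) := hB.pos _ ht0.le ht1
  have hw : HasDerivAt (fun r => w₁ (y r / ρ)) (-τ * c (y r / ρ) * (2 * r / ρ)) r :=
    HasDerivAt.comp r (hB.dw1 (y r / ρ)) ht
  have hW : HasDerivAt (fun r => y r / ρ * c (y r / ρ)) (w₁ (y r / ρ) * (2 * r / ρ)) r := by
    have h := HasDerivAt.comp r (hB.dw (y r / ρ)) ht
    exact h
  have hne : y r / ρ * c (y r / ρ) ≠ 0 := (mul_pos ht0 hc).ne'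
  have h1 := hw.div hW hne
  have h2 : HasDerivAt (fun r : ℝ => 2 / ρ * r ^ 2) (2 / ρ * (2 * r)) r := by
    simpa using (hasDerivAt_pow 2 r).const_mul (2 / ρ)
  exact (h2.mul h1).sub_const 1

theorem point_id {τ ρ r t c w f f' : ℝ} (hr : r ≠ 0) (hρ : ρ ≠ 0) (ht : t ≠ 0) (hc : c ≠ 0) :
    4 * τ * r ^ 2 / (ρ * (t * ρ)) * f ^ 2 * r +
      (2 * f * f' * (2 / ρ * r ^ 2 * (w / (t * c)) - 1) + f ^ 2 *
        (2 / ρ * (2 * r) * (w / (t * c)) + 2 / ρ * r ^ 2 *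
          ((-τ * c * (2 * r / ρ) * (t * c) - w * (w * (2 * r / ρ))) / (t * c) ^ 2))) +
      1 / r * (f + r * f' - 2 * r ^ 2 / ρ * (w / (t * c)) * f) ^ 2 =
    (f' ^ 2 + f ^ 2 / r ^ 2) * r := by
  field_simp
  ring

theorem KK_cont {τ : ℝ} {c w₁ y : ℝ → ℝ} (hB : Bes τ c w₁) {ρ r : ℝ} (hρ : 0 < ρ)
    (hy : ContinuousAt y r) (hy0 : 0 < y r) (hy1 : y r < ρ) :
    ContinuousAt (KK c w₁ y ρ) r ∧ ContinuousAt (KD τ c w₁ y ρ) r := by
  have ht0 : 0 < y r / ρ := div_pos hy0 hρ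
  have ht1 : y r / ρ < 1 := (div_lt_one hρ).mpr hy1
  have hc : 0 < c (y r / ρ) := hB.pos _ ht0.le ht1
  have ht : ContinuousAt (fun r => y r / ρ) r := hy.div_const ρ
  have hcc : ContinuousAt (fun r => c (y r / ρ)) r :=
    ContinuousAt.comp (hB.smooth.continuous.continuousAt (x := y r / ρ)) ht
  have hwc : ContinuousAt (fun r => w₁ (y r / ρ)) r :=
    ContinuousAt.comp ((hB.dw1 (y r / ρ)).continuousAt) ht
  have hne : y r / ρ * c (y r / ρ) ≠ 0 := (mul_pos ht0 hc).ne'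
  have hid : ContinuousAt (fun r : ℝ => r) r := continuousAt_id
  constructor
  · unfold KK
    exact (((continuousAt_const.mul (hid.pow 2)).mul (hwc.div (ht.mul hcc) hne)).sub
      continuousAt_const)
  · unfold KD
    refine ContinuousAt.add ?_ ?_
    · exact (continuousAt_const.mul (continuousAt_const.mul hid)).mul (hwc.div (ht.mul hcc) hne)
    · refine (continuousAt_const.mul (hid.pow 2)).mul (ContinuousAt.div ?_ ?_ (pow_ne_zero 2 hne))
      · refine ContinuousAt.sub ?_ ?_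
        · exact ((continuousAt_const.mul hcc).mul ((continuousAt_const.mul hid).div_const ρ)).mul
            (ht.mul hcc)
        · exact hwc.mul (hwc.mul ((continuousAt_const.mul hid).div_const ρ))
      · exact (ht.mul hcc).pow 2

theorem integrable_aux {g : ℝ → ℝ} {R M : ℝ} (hg : ContinuousOn g (Ioi 0))
    (hb : ∀ r, 0 < r → r ≤ R → |g r| ≤ M) (h0 : ∀ r, R < r → g r = 0) (hR : 0 < R) :
    IntegrableOn g (Ioi 0) := by
  have h1 : Ioi (0 : ℝ) = Ioc 0 R ∪ Ioi R := (Ioc_union_Ioi_eq_Ioi hR.le).symm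
  rw [h1]
  refine IntegrableOn.union ?_ ?_
  · refine IntegrableOn.of_bound (by simp) ?_ M ?_
    · exact (hg.mono Ioc_subset_Ioi_self).aestronglyMeasurable measurableSet_Ioc
    · filter_upwards [ae_restrict_mem measurableSet_Ioc] with r hr
      rw [Real.norm_eq_abs]
      exact hb r hr.1 hr.2
  · refine IntegrableOn.congr_fun integrableOn_zero (fun r hr => ?_) measurableSet_Ioi
    exact (h0 r hr).symm

end Pool.Agent.H14.RK
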